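import Pool.Agent.Gen.TY.FT.Tabs
import Pool.Agent.Helper44.TY.IsoAB

/-!
MP_8ee768_co, project TH-Y', stages F and T: the one-link tables modulo automorphisms.
`recsF` has one record per class of `repsF`; `lxA`, `lyA` (`lxB`, `lyB`) are the entries over
`repA` (`repB`) that are relative, resp. not relative to the apex.
-/

set_option autoImplicit false
set_option maxRecDepth 100000
set_option exponentiation.threshold 5000

namespace Pool.Agent.Gen.TY.FT

open Finset
open Pool.Agent.Helper44.TY
open Pool.Agent.Helper79.CV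
open Pool.Agent.Helper67.TY
open Pool.Agent.Helper33.CV

/-- the relative entries over `repA` -/
def lxA : List (ℕ × ℕ) := listOf Rec.xa 0 recsF

/-- the entries over `repA` that are not relative -/
def lyA : List (ℕ × ℕ) := listOf Rec.ya 0 recsF

/-- all entries over `repA` -/
def lA : List (ℕ × ℕ) := listOf Rec.ea 0 recsF

/-- the relative entries over `repB` -/
def lxB : List (ℕ × ℕ) := listOf Rec.xb 0 recsF

/-- the entries over `repB` that are not relative -/
def lyB : List (ℕ × ℕ) := listOf Rec.yb 0 recsF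

/-- all entries over `repB` -/
def lB : List (ℕ × ℕ) := listOf Rec.eb 0 recsF

theorem mem_lA {k e : ℕ} : (k, e) ∈ lA ↔ (k, e) ∈ lxA ∨ (k, e) ∈ lyA := mem_listOf_append

theorem mem_lB {k e : ℕ} : (k, e) ∈ lB ↔ (k, e) ∈ lxB ∨ (k, e) ∈ lyB := mem_listOf_append

theorem repA_lt : repA < 2 ^ 165 := by decide +kernel

theorem repB_lt : repB < 2 ^ 165 := by decide +kernel

theorem card_of_enc {n k N : ℕ} (hn : n ≤ 13) : (fam n k N).card = (decL (L n k) N).length := by
  rw [← famL_decL]
  unfold famL
  rw [List.toFinset_card_of_nodup, List.length_map]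
  refine List.Nodup.map_on ?_ (nodup_decL n k N)
  intro a ha b hb hab
  have hlt : ∀ m ∈ decL (L n k) N, m < 2 ^ 13 := fun m hm =>
    lt_of_lt_of_le (lt_of_mem_L (lt_of_mem_decL hm)) (Nat.pow_le_pow_right (by norm_num) hn)
  exact ofMask_injOn (hlt a ha) (hlt b hb) hab

theorem card_repA : (fam 11 3 repA).card = 19 := by
  rw [card_of_enc (by norm_num)]
  decide +kernel

theorem card_repB : (fam 11 3 repB).card = 19 := by
  rw [card_of_enc (by norm_num)]
  decide +kernel

theorem autA_mem (ρ : Equiv.Perm (Fin 13)) (h11 : ρ 11 = 11) (h12 : ρ 12 = 12)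
    (h : mapF ρ (fam 11 3 repA) = fam 11 3 repA) : ρ ∈ autSet autA :=
  ⟨⟨h11, h12⟩, autA_complete ρ h11 h12 h⟩

theorem autB_mem (ρ : Equiv.Perm (Fin 13)) (h11 : ρ 11 = 11) (h12 : ρ 12 = 12)
    (h : mapF ρ (fam 11 3 repB) = fam 11 3 repB) : ρ ∈ autSet autB :=
  ⟨⟨h11, h12⟩, autB_complete ρ h11 h12 h⟩

/-- **all entries over `repA`, modulo automorphisms** -/
theorem tabA_F (hC : ClsOK 4 repsF) :
    TabA repsF repA 4 (fun _ _ => True) (autSet autA) lA :=
  tabA_fst hC repA_lt repB_lt card_repA autA_mem repA_ne_repB recsF_ok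

/-- **all entries over `repB`, modulo automorphisms** -/
theorem tabB_F (hC : ClsOK 4 repsF) :
    TabA repsF repB 4 (fun _ _ => True) (autSet autB) lB :=
  tabA_snd hC repA_lt repB_lt card_repB autB_mem repB_ne_repA recsF_ok

/-- **the relative entries over `repA`, modulo automorphisms** -/
theorem tabAx_F (hC : ClsOK 4 repsF) : TabA repsF repA 4 RelX (autSet autA) lxA :=
  relX_fst repA_lt recsF_ok length_recsF (tabA_F hC)

/-- **the relative entries over `repB`, modulo automorphisms** -/
theorem tabBx_F (hC : ClsOK 4 repsF) : TabA repsF repB 4 RelX (autSet autB) lxB :=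
  relX_snd repB_lt recsF_ok length_recsF (tabB_F hC)

end Pool.Agent.Gen.TY.FT
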