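import Pool.Agent.Gen.TY.FT.Recs
import Pool.Agent.Helper67.TY.RunsData

/-!
MP_8ee768_co, project TH-Y', stage F: the one-link tables modulo automorphisms, checked.
-/

set_option autoImplicit false
set_option maxRecDepth 100000
set_option exponentiation.threshold 5000

namespace Pool.Agent.Gen.TY.FT

open Pool.Agent.Helper44.TY
open Pool.Agent.Helper79.CV
open Pool.Agent.Helper67.TY

theorem recs_step {d : ℕ} {Rs Rs' : List Rec}
    (hlen : ((repsF.drop d).take 47).length = Rs.length)
    (h : recsOK repA repB ((repsF.drop d).take 47) Rs = true)
    (h' : recsOK repA repB (repsF.drop (d + 47)) Rs' = true) :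
    recsOK repA repB (repsF.drop d) (Rs ++ Rs') = true := by
  have h1 := recsOK_append hlen h h'
  rwa [← List.drop_drop, List.take_append_drop] at h1

def ok0 : recsOK repA repB ((repsF.drop 0).take 47) recs0 = true := by
  decide +kernel

def ok1 : recsOK repA repB ((repsF.drop 47).take 47) recs1 = true := by
  decide +kernel

def ok2 : recsOK repA repB ((repsF.drop 94).take 47) recs2 = true := by
  decide +kernel

def ok3 : recsOK repA repB ((repsF.drop 141).take 47) recs3 = true := by
  decide +kernel

def ok4 : recsOK repA repB ((repsF.drop 188).take 47) recs4 = true := by
  decide +kernel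

def ok5 : recsOK repA repB ((repsF.drop 235).take 47) recs5 = true := by
  decide +kernel

def ok6 : recsOK repA repB ((repsF.drop 282).take 47) recs6 = true := by
  decide +kernel

def ok7 : recsOK repA repB ((repsF.drop 329).take 47) recs7 = true := by
  decide +kernel

def ok8 : recsOK repA repB ((repsF.drop 376).take 47) recs8 = true := by
  decide +kernel

def ok9 : recsOK repA repB (repsF.drop 423) recs9 = true := by
  decide +kernel

theorem len0 : ((repsF.drop 0).take 47).length = recs0.length := by
  decide +kernel

theorem len1 : ((repsF.drop 47).take 47).length = recs1.length := by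
  decide +kernel

theorem len2 : ((repsF.drop 94).take 47).length = recs2.length := by
  decide +kernel

theorem len3 : ((repsF.drop 141).take 47).length = recs3.length := by
  decide +kernel

theorem len4 : ((repsF.drop 188).take 47).length = recs4.length := by
  decide +kernel

theorem len5 : ((repsF.drop 235).take 47).length = recs5.length := by
  decide +kernel

theorem len6 : ((repsF.drop 282).take 47).length = recs6.length := by
  decide +kernel

theorem len7 : ((repsF.drop 329).take 47).length = recs7.length := by
  decide +kernel

theorem len8 : ((repsF.drop 376).take 47).length = recs8.length := by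
  decide +kernel

/-- **the tables of the 466 classes are complete** -/
theorem recsF_ok : recsOK repA repB repsF recsF = true :=
  recs_step (d := 0) len0 ok0 (recs_step (d := 47) len1 ok1 (recs_step (d := 94) len2 ok2
    (recs_step (d := 141) len3 ok3 (recs_step (d := 188) len4 ok4
    (recs_step (d := 235) len5 ok5 (recs_step (d := 282) len6 ok6
    (recs_step (d := 329) len7 ok7 (recs_step (d := 376) len8 ok8 ok9))))))))

theorem length_recsF : repsF.length = recsF.length := by decide +kernel

end Pool.Agent.Gen.TY.FT
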